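import Pool.Agent.Work.MP_fbd21a_gt.MainF
import Pool.Agent.Work.MP_fbd21a_gt.StGrp

set_option autoImplicit false

namespace Pool.Agent.Results.MP_fbd21a_gt.EquivariantGenus

open Set PoolFbd

/-- There is a strongly negative amphichiral knot `K` in the three-sphere, with the linear point
reflection, whose rational Alexander module has dimension at most two (so that its symmetric
Alexander polynomial has degree at most one), such that every invariant surface has genus at
least two. -/
theorem result :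
    ∃ γ : Circle → Sph3, Continuous γ ∧ Function.Injective γ ∧ FlatKnot (range γ) ∧
      (∀ z : Circle, rhoS (γ z) = γ z⁻¹) ∧
      (∀ x₀ : KnotCompl (range γ), FinAlex (KnotGrp (range γ) x₀) ∧
        ∀ m : KnotGrp (range γ) x₀, (alexPoly (KnotGrp (range γ) x₀) m).natDegree ≤ 2) ∧
      ∀ (g : ℕ) (F : Set Ball4), FlatSurf g (range γ) F →
        (∃ rb : Ball4 → Ball4, Continuous rb ∧ (∀ x, rb (rb x) = x) ∧
          (∀ x, rb (sIn x) = sIn (rhoS x)) ∧ rb '' F = F) → 2 ≤ g := by
  obtain ⟨h, h3, h1, h2, h4, h5⟩ := ballq_exists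
  obtain ⟨γ, hγc, hγi, hγr, hγρ⟩ := kn_circle
  have hrange : range (fun z => h3 (γ z)) = h3 '' Kn := by
    rw [← hγr, ← range_comp]
    rfl
  refine ⟨fun z => h3 (γ z), h3.continuous.comp hγc, h3.injective.comp hγi, ?_, ?_, ?_, ?_⟩
  · rw [hrange]
    exact knot_trans (fun p hp => kn_flat hp) h3
  · intro z
    show rhoS (h3 (γ z)) = h3 (γ z⁻¹)
    rw [← hγρ, ← h4]
  · rw [hrange]
    intro x₀
    have hKc : IsClosed (h3 '' Kn) := h3.isClosedMap _ kn_tame.1
    have hconn : IsConnected (h3 '' Kn)ᶜ := by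
      have e1 : Conn0 Knᶜ := tame_compl e3_conn1.1 kn_tame
      have e2 : IsConnected Knᶜ := conn0_conn kn_tame.1.isOpen_compl e1
      rw [← image_compl_eq h3.bijective]
      exact e2.image _ h3.continuous.continuousOn
    have := compl_path hKc hconn
    obtain ⟨i, q, U, hE⟩ := enr_compl hKc x₀
    have hpco := pco_exists hE x₀
    obtain ⟨ι, κ, hC⟩ := cemb_exists kn_tame.1 h3 x₀
    obtain ⟨g, u, k, hgeo⟩ := geo_knot
    have hb := alex_bound hgeo hC hpco
    have hfin : Module.Finite ℚ (CommDual (KnotGrp (h3 '' Kn) x₀)) := hb.1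
    refine ⟨hfin, fun m => ?_⟩
    unfold alexPoly
    rw [dif_pos hfin, LinearMap.charpoly_natDegree]
    exact hb.2
  · rw [hrange]
    intro g F hF hrb
    obtain ⟨rb, r1, r2, r3, r4⟩ := hrb
    by_contra hlt
    exact no_small (by omega) h h3 h1 h2 h4 hF r1 r2 r3 r4

end Pool.Agent.Results.MP_fbd21a_gt.EquivariantGenus
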